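import Mathlib

set_option autoImplicit false

/-!
Translating a speed set can decrease its loneliness gap: for every `n ≥ 2` the gap can drop under
the translation by `1` from a value below `1 / 2` but arbitrarily close to it down to `1 / (n + 1)`.
The sets are `V = {m - 1, 2 m - 1, ..., n m - 1}` with `m` odd.
-/

namespace Pool.Agent.Results.MP_64d5df_nt.TranslationDrop

/-- The distance `‖x‖` from the real number `x` to the nearest integer. -/
noncomputable def distInt (x : ℝ) : ℝ := |x - round x|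

/-- The loneliness gap `κ(V) = sup_t min_{v ∈ V} ‖t v‖` of a finite set `V` of integers. -/
noncomputable def kappa (V : Finset ℕ) : ℝ := ⨆ t : ℝ, ⨅ v : V, distInt (t * ((v : ℕ) : ℝ))

/-- The translate `a + V`. -/
def translate (a : ℕ) (V : Finset ℕ) : Finset ℕ := V.image (fun v => a + v)

lemma distInt_nonneg (x : ℝ) : 0 ≤ distInt x := abs_nonneg _

lemma distInt_le_half (x : ℝ) : distInt x ≤ 1 / 2 := abs_sub_round x

lemma distInt_le (x : ℝ) (k : ℤ) : distInt x ≤ |x - k| := round_le x k

lemma le_distInt {x c : ℝ} (h : ∀ k : ℤ, c ≤ |x - k|) : c ≤ distInt x := h _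

lemma bddBelow (V : Finset ℕ) (t : ℝ) :
    BddBelow (Set.range fun v : V => distInt (t * ((v : ℕ) : ℝ))) :=
  ⟨0, by rintro _ ⟨v, rfl⟩; exact distInt_nonneg _⟩

lemma inf_le {V : Finset ℕ} (t : ℝ) {v : ℕ} (hv : v ∈ V) :
    ⨅ v : V, distInt (t * ((v : ℕ) : ℝ)) ≤ distInt (t * (v : ℝ)) :=
  ciInf_le (bddBelow V t) (⟨v, hv⟩ : V)

lemma kappa_le {V : Finset ℕ} {c : ℝ} (h : ∀ t : ℝ, ∃ v ∈ V, distInt (t * (v : ℝ)) ≤ c) :
    kappa V ≤ c := by
  apply ciSup_le
  intro t
  obtain ⟨v, hv, hc⟩ := h t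
  exact (inf_le t hv).trans hc

lemma bddAbove {V : Finset ℕ} (hV : V.Nonempty) :
    BddAbove (Set.range fun t : ℝ => ⨅ v : V, distInt (t * ((v : ℕ) : ℝ))) := by
  obtain ⟨v, hv⟩ := hV
  refine ⟨1 / 2, ?_⟩
  rintro _ ⟨t, rfl⟩
  exact (inf_le t hv).trans (distInt_le_half _)

lemma le_kappa {V : Finset ℕ} (hV : V.Nonempty) {c : ℝ} (t : ℝ)
    (h : ∀ v ∈ V, c ≤ distInt (t * (v : ℝ))) : c ≤ kappa V := by
  have : Nonempty V := hV.to_subtype
  have h1 : c ≤ ⨅ v : V, distInt (t * ((v : ℕ) : ℝ)) := le_ciInf fun v => h v.1 v.2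
  exact h1.trans (le_ciSup (bddAbove hV) t)

/-- an integer plus a number between `0` and `1` -/
lemma le_distInt_of {x c : ℝ} (k : ℤ) (h1 : c ≤ x - k) (h2 : x - k ≤ 1 - c) : c ≤ distInt x := by
  apply le_distInt
  intro l
  rcases le_or_gt l k with h | h
  · have : (l : ℝ) ≤ k := by exact_mod_cast h
    rw [le_abs]; left; linarith
  · have : (k : ℝ) + 1 ≤ l := by exact_mod_cast h
    rw [le_abs]; right; linarith

/-- For every `n ≥ 2` and every `ε > 0` there is a set `V` of `n` positive integers whose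
loneliness gap lies in `[1 / 2 - ε, 1 / 2)` while the gap of its translate `1 + V` is
`1 / (n + 1)`, the least value allowed by the lonely runner conjecture. -/
theorem result (n : ℕ) (hn : 2 ≤ n) (ε : ℝ) (hε : 0 < ε) :
    ∃ V : Finset ℕ, V.card = n ∧ (∀ v ∈ V, 0 < v) ∧
      1 / 2 - ε ≤ kappa V ∧ kappa V < 1 / 2 ∧ kappa (translate 1 V) = 1 / ((n : ℝ) + 1) := by
  obtain ⟨r, hr⟩ := exists_nat_gt (1 / (4 * ε))
  have hr0 : 0 < r := by
    have : (0 : ℝ) < r := lt_trans (by positivity) hr
    exact_mod_cast this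
  have hrR : (0 : ℝ) < r := by exact_mod_cast hr0
  obtain ⟨m, hm⟩ : ∃ m, m = 2 * r + 1 := ⟨_, rfl⟩
  have hmR : (m : ℝ) = 2 * r + 1 := by rw [hm]; push_cast; ring
  have hm3 : 3 ≤ m := by omega
  have hm0 : (0 : ℝ) < m := by rw [hmR]; positivity
  have hn0 : (0 : ℝ) < (n : ℝ) + 1 := by positivity
  set V : Finset ℕ := (Finset.Icc 1 n).image (fun j => j * m - 1) with hV
  have hpos : ∀ j, 1 ≤ j → 1 ≤ j * m - 1 := by
    intro j hj
    have : 1 * m ≤ j * m := Nat.mul_le_mul_right m hj
    omega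
  have hcast : ∀ j, 1 ≤ j → ((j * m - 1 : ℕ) : ℝ) = j * m - 1 := by
    intro j hj
    have := hpos j hj
    rw [Nat.cast_sub (by omega)]
    push_cast; ring
  have hmem : ∀ j, 1 ≤ j → j ≤ n → j * m - 1 ∈ V := by
    intro j h1 h2
    rw [hV, Finset.mem_image]
    exact ⟨j, Finset.mem_Icc.mpr ⟨h1, h2⟩, rfl⟩
  have hne : V.Nonempty := ⟨_, hmem 1 le_rfl (by omega)⟩
  have htr : translate 1 V = (Finset.Icc 1 n).image (fun j => j * m) := by
    rw [translate, hV, Finset.image_image]
    apply Finset.image_congr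
    intro j hj
    have hj1 := (Finset.mem_Icc.mp hj).1
    have := hpos j hj1
    simp only [Function.comp]
    omega
  refine ⟨V, ?_, ?_, ?_, ?_, ?_⟩
  · rw [hV, Finset.card_image_of_injOn]
    · simp
    · intro a ha b hb hab
      have ha1 := hpos a (Finset.mem_Icc.mp ha).1
      have hb1 := hpos b (Finset.mem_Icc.mp hb).1
      simp only at hab
      have h1 : a * m = b * m := by omega
      exact Nat.eq_of_mul_eq_mul_right (by omega) h1
  · intro v hv
    rw [hV, Finset.mem_image] at hv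
    obtain ⟨j, hj, rfl⟩ := hv
    exact hpos j (Finset.mem_Icc.mp hj).1
  · -- the time `r / m`
    have h1 : (r : ℝ) / m ≤ kappa V := by
      apply le_kappa hne ((r : ℝ) / m)
      intro v hv
      rw [hV, Finset.mem_image] at hv
      obtain ⟨j, hj, rfl⟩ := hv
      have hj1 := (Finset.mem_Icc.mp hj).1
      rw [hcast j hj1]
      have h2 : (r : ℝ) / m * (j * m - 1) = r * j - r / m := by
        field_simp
      rw [h2]
      have h3 : (r : ℝ) / m ≤ 1 / 2 := by
        rw [div_le_div_iff₀ hm0 (by norm_num)]; rw [hmR]; linarith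
      apply le_distInt_of ((r : ℤ) * j - 1)
      · push_cast; linarith
      · push_cast; linarith
    refine le_trans ?_ h1
    rw [le_div_iff₀ hm0, hmR]
    rw [div_lt_iff₀ (by positivity)] at hr
    nlinarith
  · -- strictly less than one half
    have h1 : kappa V ≤ 1 / 2 - 1 / (2 * (3 * (m : ℝ) - 2)) := by
      apply kappa_le
      intro t
      by_contra hcon
      push Not at hcon
      have ha := hcon _ (hmem 1 le_rfl (by omega))
      have hb := hcon _ (hmem 2 (by omega) hn)
      rw [hcast 1 le_rfl] at ha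
      rw [hcast 2 (by omega)] at hb
      push_cast at ha hb
      have hD : (0 : ℝ) < 3 * (m : ℝ) - 2 := by
        have : (3 : ℝ) ≤ m := by exact_mod_cast hm3
        linarith
      set δ : ℝ := 1 / (2 * (3 * (m : ℝ) - 2)) with hδ
      have hδ0 : 0 < δ := by rw [hδ]; positivity
      have hδD : δ * (3 * (m : ℝ) - 2) = 1 / 2 := by
        rw [hδ]; field_simp
      -- each of the two numbers is within δ of a half-integer
      have key : ∀ x : ℝ, 1 / 2 - δ < distInt x → ∃ k : ℤ, |x - (k + 1 / 2)| < δ := by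
        intro x hx
        refine ⟨⌊x⌋, ?_⟩
        have h1 := distInt_le x ⌊x⌋
        have h2 := distInt_le x (⌊x⌋ + 1)
        have h3 := Int.floor_le x
        have h4 := Int.lt_floor_add_one x
        push_cast at h2
        rw [abs_of_nonneg (by linarith)] at h1
        rw [abs_of_nonpos (by linarith)] at h2
        rw [abs_lt]
        constructor <;> linarith
      obtain ⟨k, hk⟩ := key _ ha
      obtain ⟨l, hl⟩ := key _ hb
      rw [abs_lt] at hk hl
      -- the parity contradiction
      have hodd : ((2 * m - 1 : ℤ) * (2 * k + 1) - (m - 1 : ℤ) * (2 * l + 1)) % 2 = 1 := by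
        have : (m : ℤ) = 2 * r + 1 := by rw [hm]; push_cast; ring
        rw [this]
        have h5 : (2 * (2 * (r : ℤ) + 1) - 1) * (2 * k + 1) - (2 * (r : ℤ) + 1 - 1) * (2 * l + 1)
            = 2 * ((2 * r) * (2 * k + 1) + k - r * (2 * l + 1)) + 1 := by ring
        rw [h5]
        omega
      set z : ℤ := (2 * m - 1 : ℤ) * (2 * k + 1) - (m - 1 : ℤ) * (2 * l + 1) with hz
      have hz0 : z ≠ 0 := by
        intro h
        rw [h] at hodd
        norm_num at hodd
      have hz1 : (1 : ℝ) ≤ |(z : ℝ)| := by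
        have : (1 : ℤ) ≤ |z| := Int.one_le_abs hz0
        exact_mod_cast this
      have hzR : (z : ℝ) / 2 = (m - 1) * (t * (2 * m - 1) - (l + 1 / 2)) -
          (2 * m - 1) * (t * (1 * m - 1) - (k + 1 / 2)) := by
        rw [hz]; push_cast; ring
      have hm3R : (3 : ℝ) ≤ m := by exact_mod_cast hm3
      have h6 : |(z : ℝ) / 2| < 1 / 2 := by
        rw [hzR, abs_lt]
        constructor
        · nlinarith [mul_pos (show (0 : ℝ) < m - 1 by linarith)
              (show 0 < (t * (2 * m - 1) - (l + 1 / 2)) + δ by linarith [hl.1]),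
            mul_pos (show (0 : ℝ) < 2 * m - 1 by linarith)
              (show 0 < δ - (t * (1 * m - 1) - (k + 1 / 2)) by linarith [hk.2])]
        · nlinarith [mul_pos (show (0 : ℝ) < m - 1 by linarith)
              (show 0 < δ - (t * (2 * m - 1) - (l + 1 / 2)) by linarith [hl.2]),
            mul_pos (show (0 : ℝ) < 2 * m - 1 by linarith)
              (show 0 < (t * (1 * m - 1) - (k + 1 / 2)) + δ by linarith [hk.1])]
      rw [abs_div, abs_of_pos (by norm_num : (0 : ℝ) < 2)] at h6
      linarith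
    refine lt_of_le_of_lt h1 ?_
    have hD : (0 : ℝ) < 3 * (m : ℝ) - 2 := by
      have : (3 : ℝ) ≤ m := by exact_mod_cast hm3
      linarith
    have : 0 < 1 / (2 * (3 * (m : ℝ) - 2)) := by positivity
    linarith
  · -- the gap of `{m, 2 m, ..., n m}`
    rw [htr]
    apply le_antisymm
    · apply kappa_le
      intro t
      obtain ⟨j, k, hk0, hkn, hjk⟩ := Real.exists_int_int_abs_mul_sub_le (t * m) (n := n) (by omega)
      obtain ⟨q, rfl⟩ := Int.eq_ofNat_of_zero_le hk0.le
      have hq1 : 1 ≤ q := by exact_mod_cast hk0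
      have hqn : q ≤ n := by exact_mod_cast hkn
      refine ⟨q * m, Finset.mem_image.mpr ⟨q, Finset.mem_Icc.mpr ⟨hq1, hqn⟩, rfl⟩, ?_⟩
      refine (distInt_le _ j).trans ?_
      refine le_trans (le_of_eq ?_) hjk
      congr 1
      push_cast
      ring
    · apply le_kappa (V := (Finset.Icc 1 n).image (fun j => j * m))
        ⟨_, Finset.mem_image.mpr ⟨1, Finset.mem_Icc.mpr ⟨le_rfl, by omega⟩, rfl⟩⟩
        (1 / ((m : ℝ) * (n + 1)))
      intro v hv
      rw [Finset.mem_image] at hv
      obtain ⟨j, hj, rfl⟩ := hv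
      obtain ⟨hj1, hj2⟩ := Finset.mem_Icc.mp hj
      have hj1R : (1 : ℝ) ≤ j := by exact_mod_cast hj1
      have hj2R : (j : ℝ) ≤ n := by exact_mod_cast hj2
      have h2 : 1 / ((m : ℝ) * (n + 1)) * ((j * m : ℕ) : ℝ) = j / (n + 1) := by
        push_cast
        field_simp
      rw [h2]
      apply le_distInt_of 0
      · rw [Int.cast_zero, sub_zero]
        exact div_le_div_of_nonneg_right hj1R hn0.le
      · rw [Int.cast_zero, sub_zero, one_sub_div hn0.ne']
        apply div_le_div_of_nonneg_right _ hn0.le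
        linarith

end Pool.Agent.Results.MP_64d5df_nt.TranslationDrop
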